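import Pool.Agent.W545.Man.Strict
import Pool.Agent.W545.Man.StrictSurf
import Pool.Agent.W545.Man.Bridge
import Pool.Agent.W749.D1.Surf
import Pool.Agent.W749.ST.Exist
set_option autoImplicit false
open MeasureTheory Pool.Agent.W545.Man.St
open scoped Manifold ContDiff

/-!
# Strict monotonicity of the conformal Steklov eigenvalues

For every compact connected smooth manifold `Ω` with nonempty boundary, of any dimension
`d + 1 ≥ 2`, every conformal class on `Ω` and every `k`, the conformal Steklov eigenvalue number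
`k` (in the normalisation `σ_k |Ω|^((1-d)/(d+1)) |∂Ω|`) is strictly smaller than the one number
`k + 1`. The definitions are in `Pool/Agent/W545/Man/Stmt.lean`.
-/

namespace Pool.Agent.Results.MP_4838e0_gt.StrictConformal

/-- `σ̄_k(Ω,[G]) < σ̄_{k+1}(Ω,[G])` for all `k`, in every dimension `d + 1 ≥ 2`. -/
theorem result {d : ℕ} (hd : 1 ≤ d) {Ω : Type*} [TopologicalSpace Ω] [T2Space Ω] [CompactSpace Ω]
    [ConnectedSpace Ω] [ChartedSpace (EuclideanHalfSpace (d + 1)) Ω]
    [IsManifold (𝓡∂ (d + 1)) ∞ Ω] [MeasurableSpace Ω] [BorelSpace Ω]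
    (hbd : ((𝓡∂ (d + 1)).boundary Ω).Nonempty) (G : Ω → E (d + 1) → Mat (d + 1))
    (hG : IsMetric G) (k : ℕ) :
    confSup k G < confSup (k + 1) G := by
  have hrel := Pool.Agent.W545.Man.ofG_rel G hG
  rw [Pool.Agent.W545.Man.rel_confSup hrel, Pool.Agent.W545.Man.rel_confSup hrel]
  rcases Nat.lt_or_ge 1 d with h2 | h1
  · obtain ⟨μ, hμ⟩ := Pool.Agent.W749.ST.exists_isVolume (Pool.Agent.W545.Man.ofG G hG)
    obtain ⟨ν, hν⟩ := Pool.Agent.W749.ST.exists_isBdryVolume (Pool.Agent.W545.Man.ofG G hG)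
    exact Pool.Agent.W545.Man.strict_mono h2 _ hbd hμ hν k
  · obtain rfl : d = 1 := le_antisymm h1 hd
    obtain ⟨q, hq⟩ := hbd
    obtain ⟨R0, C, hR0, hC, H⟩ :=
      Pool.Agent.W749.D1.surf_data (Pool.Agent.W545.Man.ofG G hG) hq
    exact Pool.Agent.W545.Man.strict_surf _ hq hR0 hC H k

end Pool.Agent.Results.MP_4838e0_gt.StrictConformal
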